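import Pool.Agent.Helper94_SQS.Stmts

/-!
# Modules SMALL and ACT of the squad SQS
-/

set_option autoImplicit false

namespace Pool.Agent.SQS.H51

lemma geo (N : ℕ) : (∑ j ∈ Finset.range (N + 1), (if 1 ≤ j then ((1 : ℝ) / 2) ^ (j + 1) else 0)) +
    (1 / 2) ^ (N + 1) ≤ 1 / 2 := by
  induction N with
  | zero => norm_num
  | succ N ih =>
    rw [Finset.sum_range_succ, if_pos (by omega)]
    have : ((1 : ℝ) / 2) ^ (N + 1) = (1 / 2) ^ (N + 1 + 1) + (1 / 2) ^ (N + 1 + 1) := by
      rw [pow_succ ((1 : ℝ) / 2) (N + 1)]; ring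
    linarith

lemma geo' (N : ℕ) : (∑ j ∈ Finset.range N, (if 1 ≤ j then ((1 : ℝ) / 2) ^ (j + 1) else 0)) ≤
    1 / 2 := by
  cases N with
  | zero => norm_num
  | succ N =>
    have := geo N
    have h : (0 : ℝ) < (1 / 2) ^ (N + 1) := by positivity
    linarith

/-- module SMALL -/
theorem small : SmallStmt := by
  intro ζ
  induction ζ with
  | nil => intro k; exact ⟨0, fun n _ => by simp [X]⟩
  | pt x => intro k; exact ⟨k, fun n hn => by simpa [X] using hn⟩
  | cl n v => intro k; exact ⟨0, fun n _ => by simp [X]⟩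
  | sq ξ ih =>
    intro k
    rcases Nat.eq_zero_or_pos k with rfl | hk
    · exact ⟨0, fun n _ => by simp⟩
    choose N hN using fun j => ih j (2 * k * k)
    refine ⟨(Finset.range k).sup N, fun n hn => ?_⟩
    have hNn : ∀ j, j < k → N j ≤ n := fun j hj =>
      le_trans (Finset.le_sup (f := N) (Finset.mem_range.2 hj)) hn
    classical
    set c : ℕ → ℕ := fun j =>
      if ∀ m, n ≤ m → (j + 1) * 2 ^ (j + 1) * (X (ξ j) m).card ≤ m then (X (ξ j) n).card else 0
      with hc
    have h1 : (X (Z.sq ξ) n).card ≤ ∑ j ∈ Finset.range n, c j := by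
      have : X (Z.sq ξ) n = (Finset.range n).biUnion fun k =>
          if ∀ m, n ≤ m → (k + 1) * 2 ^ (k + 1) * (X (ξ k) m).card ≤ m then X (ξ k) n else ∅ := by
        rw [X]
      rw [this]
      refine le_trans Finset.card_biUnion_le (Finset.sum_le_sum fun j _ => ?_)
      simp only [hc]
      split_ifs <;> simp
    have h2 : ∀ j, ((k : ℝ) * c j) ≤ (if j < k then (n : ℝ) / (2 * k) else 0) +
        n * (if 1 ≤ j then ((1 : ℝ) / 2) ^ (j + 1) else 0) := by
      intro j
      have hk0 : (0 : ℝ) < k := by exact_mod_cast hk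
      have hn0 : (0 : ℝ) ≤ n := Nat.cast_nonneg n
      by_cases hj : j < k
      · rw [if_pos hj]
        have e1 : c j ≤ (X (ξ j) n).card := by
          simp only [hc]; split_ifs <;> simp
        have e2 := hN j n (hNn j hj)
        have e3 : ((2 * k * k : ℕ) : ℝ) * ((X (ξ j) n).card : ℝ) ≤ n := by exact_mod_cast e2
        have e4 : (c j : ℝ) ≤ ((X (ξ j) n).card : ℝ) := by exact_mod_cast e1
        have e5 : (k : ℝ) * c j ≤ (n : ℝ) / (2 * k) := by
          rw [le_div_iff₀ (by positivity)]
          push_cast at e3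
          calc (k : ℝ) * c j * (2 * k) ≤ k * ((X (ξ j) n).card : ℝ) * (2 * k) := by gcongr
            _ = 2 * k * k * ((X (ξ j) n).card : ℝ) := by ring
            _ ≤ n := e3
        have e6 : (0 : ℝ) ≤ n * (if 1 ≤ j then ((1 : ℝ) / 2) ^ (j + 1) else 0) := by
          split_ifs <;> positivity
        linarith
      · rw [if_neg hj, if_pos (by omega), zero_add]
        by_cases ha : ∀ m, n ≤ m → (j + 1) * 2 ^ (j + 1) * (X (ξ j) m).card ≤ m
        · have e1 : c j = (X (ξ j) n).card := by simp only [hc]; rw [if_pos ha]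
          have e2 := ha n le_rfl
          have e3 : ((j : ℝ) + 1) * 2 ^ (j + 1) * ((X (ξ j) n).card : ℝ) ≤ n := by exact_mod_cast e2
          have e4 : (k : ℝ) ≤ (j : ℝ) + 1 := by
            have : k ≤ j + 1 := by omega
            exact_mod_cast this
          rw [e1, one_div, inv_pow, ← div_eq_mul_inv, le_div_iff₀ (by positivity)]
          have e5 : (k : ℝ) * ((X (ξ j) n).card : ℝ) * 2 ^ (j + 1) ≤
              ((j : ℝ) + 1) * ((X (ξ j) n).card : ℝ) * 2 ^ (j + 1) := by gcongr
          linarith
        · have e1 : c j = 0 := by simp only [hc]; rw [if_neg ha]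
          rw [e1]
          simp only [Nat.cast_zero, mul_zero]
          positivity
    have h3 : (k : ℝ) * ((X (Z.sq ξ) n).card : ℝ) ≤ n := by
      have a1 : ((X (Z.sq ξ) n).card : ℝ) ≤ ∑ j ∈ Finset.range n, (c j : ℝ) := by exact_mod_cast h1
      have hk0 : (0 : ℝ) < k := by exact_mod_cast hk
      have a2 : (k : ℝ) * ((X (Z.sq ξ) n).card : ℝ) ≤ ∑ j ∈ Finset.range n, (k : ℝ) * c j := by
        rw [← Finset.mul_sum]
        exact mul_le_mul_of_nonneg_left a1 hk0.le
      have a3 := Finset.sum_le_sum (s := Finset.range n) fun j _ => h2 j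
      rw [Finset.sum_add_distrib, ← Finset.mul_sum (Finset.range n) _ (n : ℝ)] at a3
      have a4 : ∑ j ∈ Finset.range n, (if j < k then (n : ℝ) / (2 * k) else 0) ≤ n / 2 := by
        rw [← Finset.sum_filter]
        rw [Finset.sum_const, nsmul_eq_mul]
        have : ((Finset.range n).filter fun j => j < k).card ≤ k := by
          refine le_trans (Finset.card_le_card (t := Finset.range k) ?_) (by simp)
          intro j hj
          rw [Finset.mem_filter] at hj
          exact Finset.mem_range.2 hj.2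
        have b1 : (((Finset.range n).filter fun j => j < k).card : ℝ) ≤ k := by exact_mod_cast this
        calc (((Finset.range n).filter fun j => j < k).card : ℝ) * ((n : ℝ) / (2 * k))
            ≤ k * ((n : ℝ) / (2 * k)) := by gcongr
          _ = n / 2 := by field_simp
      have a5 := mul_le_mul_of_nonneg_left (geo' n) (Nat.cast_nonneg (α := ℝ) n)
      linarith
    exact_mod_cast h3

/-- module ACT -/
theorem active (hS : SmallStmt) : ActStmt := by
  intro ξ k
  obtain ⟨N, hN⟩ := hS (ξ k) ((k + 1) * 2 ^ (k + 1))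
  refine ⟨max N (k + 1), fun n hn => ⟨by omega, fun m hm => hN m (by omega)⟩⟩

end Pool.Agent.SQS.H51
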